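import Pool.Agent.H281R3.HT.Mid

open CategoryTheory AlgebraicGeometry

universe u v w

namespace Pool.Agent.Results.MP_ffcd14_ag.IrreducibleActionProducts

open Pool.Agent.H914 Pool.Agent.H914.VarClass Pool.Agent.H914.VarClass.Obj
  Pool.Agent.H281R3.HT

/-- **The standard conjectures of Hodge type and `D` for products, from finite groups acting
irreducibly on the transcendental cohomology**: let `P` be a family of polarized varieties whose
transcendental cohomology is an absolutely irreducible representation (or zero) of some finite
group of automorphisms; suppose that any two members with non-zero transcendental cohomology have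
the same underlying variety (with arbitrary divisors). Then the conjectures of Hodge type and `D`
for the members of the family are equivalent to the conjectures of Hodge type and `D` for all
varieties covered by iterated products of members of the family. -/
theorem result {k : Type u} [Field k] {𝒱 : VarClass k} {ops : CycleOps 𝒱}
    (W : WeilCohomology.{u, v} ops) {ι : Type w} (P : ι → Polarized 𝒱)
    (hD : ∀ j, (P j).X.IsCyc 1 (P j).D) (hHL : ∀ j, HardLefschetz W (P j).X (P j).D)
    (hS : ∀ i j, (P i).X = (P j).X ∨ NoTranscendental W (P i).X ∨ NoTranscendental W (P j).X)
    (hA : ∀ j, ∃ A : FinAction ops (P j).X, A.AbsIrreducible W) :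
    (∀ j, HodgeType W (P j).X (P j).D ∧ HomEqNum W (P j).X) ↔
      ∀ Q, IsProduct ops P Q → ∀ Y, Covers W Q Y → Y.X.IsCyc 1 Y.D →
        HodgeType W Y.X Y.D ∧ HomEqNum W Y.X :=
  hodge_products_iff_action' hD hHL hS hA

end Pool.Agent.Results.MP_ffcd14_ag.IrreducibleActionProducts
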